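import Pool.Agent.H74.Ext.Reduce
import Pool.Agent.H50.Rigid

set_option autoImplicit false

namespace Pool.Agent.Results.MP_995dc9_al.OneOvergroup

universe u

/-- An endomorphism `α` of a group `G` is extendable if for every group `H` and every
homomorphism `f : G →* H` there is an endomorphism `β` of `H` with `β ∘ f = f ∘ α`. -/
def Extendable {G : Type u} [Group G] (α : G →* G) : Prop :=
  ∀ (H : Type u) [Group H] (f : G →* H), ∃ β : H →* H, β.comp f = f.comp α

/-- The endomorphism `α` of `G` admits a coherent choice: a family `β` that assigns to every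
group `H` and every homomorphism `f : G →* H` an endomorphism `β H f` of `H` with
`β H f ∘ f = f ∘ α`, such that `β H₂ (h ∘ f) ∘ h = h ∘ β H₁ f` for all `f : G →* H₁` and
all `h : H₁ →* H₂`. -/
def HasCoherentChoice {G : Type u} [Group G] (α : G →* G) : Prop :=
  ∃ β : ∀ (H : Type u) [Group H], (G →* H) → (H →* H),
    (∀ (H : Type u) [Group H] (f : G →* H), (β H f).comp f = f.comp α) ∧
    ∀ (H₁ : Type u) [Group H₁] (H₂ : Type u) [Group H₂] (f : G →* H₁) (h : H₁ →* H₂),
      (β H₂ (h.comp f)).comp h = h.comp (β H₁ f)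

/-- Every group `G` embeds in a group `H`, which depends on `G` only, such that a nontrivial endomorphism of `G` which extends
to an endomorphism of `H` is inner. -/
theorem one_overgroup (G : Type u) [Group G] : ∃ (H : Type u) (_ : Group H) (f : G →* H), Function.Injective f ∧
    ∀ α : G →* G, α ≠ 1 → (∃ β : H →* H, β.comp f = f.comp α) → ∃ c : G, ∀ g : G, α g = c * g * c⁻¹ := by
  classical
  obtain ⟨L, hL, hdec, F, hF⟩ := H50.rigid_family {g : G // g ≠ 1}
  obtain ⟨S, hS, f, hf, hred⟩ := H74.Ext.reduction_one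
    (fun g : G => if hg : g ≠ 1 then F ⟨g, hg⟩ else ∅)
  refine ⟨S, hS, f, hf, fun α h1 hβ => ?_⟩
  obtain ⟨β, hβ⟩ := hβ
  obtain ⟨hinj, c, τ, hτ, h⟩ := hred α β h1 hβ
  have hne : ∀ g : G, g ≠ 1 → c * α g * c⁻¹ ≠ 1 := by
    intro g hg h2
    rw [mul_inv_eq_one, mul_eq_left] at h2
    exact hg (hinj (by rw [h2, map_one]))
  let π : {g : G // g ≠ 1} → {g : G // g ≠ 1} := fun g => ⟨c * α g.1 * c⁻¹, hne g.1 g.2⟩
  have hπ : Function.Injective π := by
    intro x y hxy
    have h2 : c * α x.1 * c⁻¹ = c * α y.1 * c⁻¹ := congrArg Subtype.val hxy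
    apply Subtype.ext
    apply hinj
    simpa using h2
  have hsub : ∀ (i : {g : G // g ≠ 1}) (s : Set L), s ⊆ F i → τ s ⊆ F (π i) := by
    intro i s hs
    have h2 := h i.1 i.2 s (by simpa [i.2] using hs)
    simpa only [dif_pos (hne i.1 i.2)] using h2
  have hcard : ∀ i j, (F i ∩ F j).card ≤ (F (π i) ∩ F (π j)).card := by
    intro i j
    have hs2 : ∀ s ∈ (F i ∩ F j).powerset, τ (s : Set L) ⊆ ((F (π i) ∩ F (π j) : Finset L) : Set L) := by
      intro s hs
      rw [Finset.mem_powerset] at hs
      rw [Finset.coe_inter]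
      apply Set.subset_inter
      · exact hsub i s (by
          intro x hx
          exact (Finset.mem_inter.1 (hs hx)).1)
      · exact hsub j s (by
          intro x hx
          exact (Finset.mem_inter.1 (hs hx)).2)
    have hle : (F i ∩ F j).powerset.card ≤ (F (π i) ∩ F (π j)).powerset.card := by
      apply Finset.card_le_card_of_injOn
        (fun s : Finset L => (F (π i) ∩ F (π j)).filter (fun l => l ∈ τ (s : Set L)))
      · intro s _
        rw [Finset.mem_coe, Finset.mem_powerset]
        exact Finset.filter_subset _ _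
      · intro s hs t ht hst
        have e : ∀ s ∈ (F i ∩ F j).powerset,
            (((F (π i) ∩ F (π j)).filter (fun l => l ∈ τ (s : Set L)) : Finset L) : Set L) =
              τ (s : Set L) := by
          intro s hs
          ext x
          simp only [Finset.coe_filter, Set.mem_ofPred_eq]
          exact ⟨fun hx => hx.2, fun hx => ⟨hs2 s hs hx, hx⟩⟩
        have h3 : τ (s : Set L) = τ (t : Set L) := by
          rw [← e s hs, ← e t ht]
          exact congrArg _ hst
        exact Finset.coe_injective (hτ h3)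
    rw [Finset.card_powerset, Finset.card_powerset] at hle
    exact (Nat.pow_le_pow_iff_right (by norm_num)).1 hle
  have hid := hF π hπ hcard
  refine ⟨c⁻¹, fun g => ?_⟩
  by_cases hg : g = 1
  · simp [hg]
  · have h2 : c * α g * c⁻¹ = g := congrArg Subtype.val (hid ⟨g, hg⟩)
    rw [inv_inv]
    calc α g = c⁻¹ * (c * α g * c⁻¹) * c := by group
      _ = c⁻¹ * g * c := by rw [h2]

/-- Every extendable endomorphism of a group `G` admits a coherent choice; equivalently it is trivial or an inner automorphism.
Moreover one injective homomorphism `f : G → H`, which depends on `G` only, detects this: an endomorphism `α` of `G` is trivial or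
inner if and only if there is an endomorphism `β` of `H` with `β ∘ f = f ∘ α`. -/
theorem result : ∀ (G : Type u) [Group G],
    (∀ α : G →* G, Extendable α →
      HasCoherentChoice α ∧ (α = 1 ∨ ∃ c : G, ∀ g : G, α g = c * g * c⁻¹)) ∧
    ∃ (H : Type u) (_ : Group H) (f : G →* H), Function.Injective f ∧
      ∀ α : G →* G, (∃ β : H →* H, β.comp f = f.comp α) ↔
        (α = 1 ∨ ∃ c : G, ∀ g : G, α g = c * g * c⁻¹) := by
  intro G _
  obtain ⟨S, hS, f, hf, hall⟩ := one_overgroup G
  refine ⟨?_, S, hS, f, hf, fun α => ⟨fun hβ => ?_, ?_⟩⟩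
  · intro α hα
    have key : α = 1 ∨ ∃ c : G, ∀ g : G, α g = c * g * c⁻¹ := by
      by_cases h1 : α = 1
      · exact Or.inl h1
      · exact Or.inr (hall α h1 (hα S f))
    refine ⟨?_, key⟩
    rcases key with rfl | ⟨c, hc⟩
    · refine ⟨fun H _ _ => 1, ?_, ?_⟩
      · intro H _ f
        ext g
        simp
      · intro H₁ _ H₂ _ f h
        ext g
        simp
    · refine ⟨fun H _ f => (MulAut.conj (f c)).toMonoidHom, ?_, ?_⟩
      · intro H _ f
        ext g
        simp [hc]
      · intro H₁ _ H₂ _ f h
        ext g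
        simp
  · by_cases h1 : α = 1
    · exact Or.inl h1
    · exact Or.inr (hall α h1 hβ)
  · rintro (rfl | ⟨c, hc⟩)
    · refine ⟨1, ?_⟩
      ext g
      simp
    · refine ⟨(MulAut.conj (f c)).toMonoidHom, ?_⟩
      ext g
      simp [hc]

end Pool.Agent.Results.MP_995dc9_al.OneOvergroup
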